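import Pool.Agent.W901.RL.Stm

/-!
# Project RL: Chebyshev's inequality for independent blocks
-/

set_option autoImplicit false

namespace Pool.Agent.W762.RL

open Finset Pool.Agent.H579R2.Spt Pool.Agent.W901.RL

theorem sumR_succ (n : ℕ) (f : List Bool → ℝ) :
    ∑ r ∈ BL (n + 1), f r = ∑ r ∈ BL n, (f (true :: r) + f (false :: r)) := by
  rw [BL_succ, Finset.sum_union, Finset.sum_image (by simp), Finset.sum_image (by simp),
    Finset.sum_add_distrib]
  rw [Finset.disjoint_left]
  simp only [Finset.mem_image]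
  rintro r ⟨a, _, rfl⟩ ⟨b, _, h⟩
  simp at h

theorem sumR_add (a b : ℕ) (f : List Bool → ℝ) :
    ∑ r ∈ BL (a + b), f r = ∑ r ∈ BL a, ∑ s ∈ BL b, f (r ++ s) := by
  induction a generalizing f with
  | zero =>
    rw [BL_zero, Finset.sum_singleton, Nat.zero_add]
    simp
  | succ a ih =>
    have e : a + 1 + b = (a + b) + 1 := by omega
    rw [e, sumR_succ, sumR_succ, Finset.sum_add_distrib, ih, ih, ← Finset.sum_add_distrib]
    refine Finset.sum_congr rfl fun r _ => ?_
    simp

theorem cardR (n : ℕ) : ((BL n).card : ℝ) = 2 ^ n := by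
  have := card_BL n
  exact_mod_cast this

/-- the sum of the variances -/
theorem var_sum (L : ℕ) (Y : List Bool → ℝ) (B : ℝ) (h0 : ∑ r ∈ BL L, Y r = 0)
    (h1 : ∀ r ∈ BL L, Y r ^ 2 ≤ B ^ 2) (R : ℕ) :
    ∑ c ∈ BL (R * L), (∑ t ∈ range R, Y (blk L t c)) ^ 2 ≤ R * B ^ 2 * 2 ^ (R * L) := by
  induction R with
  | zero =>
    rw [Nat.zero_mul, BL_zero]
    simp
  | succ R ih =>
    have e : (R + 1) * L = L + R * L := by ring
    rw [e, sumR_add]
    have h2 : ∀ r ∈ BL L, ∀ s ∈ BL (R * L), (∑ t ∈ range (R + 1), Y (blk L t (r ++ s))) ^ 2 =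
        Y r ^ 2 + 2 * Y r * (∑ t ∈ range R, Y (blk L t s)) +
          (∑ t ∈ range R, Y (blk L t s)) ^ 2 := by
      intro r hr s hs
      have hr' : r.length = L := mem_BL.1 hr
      have h3 : ∑ t ∈ range (R + 1), Y (blk L t (r ++ s)) =
          Y r + ∑ t ∈ range R, Y (blk L t s) := by
        rw [Finset.sum_range_succ', add_comm]
        congr 1
        · congr 1
          unfold blk
          rw [Nat.zero_mul, List.drop_zero, ← hr', List.take_left]
        · refine Finset.sum_congr rfl fun t _ => ?_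
          congr 1
          unfold blk
          have h4 : (t + 1) * L = r.length + t * L := by rw [hr']; ring
          rw [h4, List.drop_append, List.drop_eq_nil_of_le (by omega)]
          simp
      rw [h3]
      ring
    rw [Finset.sum_congr rfl fun r hr => Finset.sum_congr rfl fun s hs => h2 r hr s hs]
    simp only [Finset.sum_add_distrib, Finset.sum_const, nsmul_eq_mul, ← Finset.mul_sum,
      ← Finset.sum_mul, h0, cardR]
    have h5 : ∑ r ∈ BL L, Y r ^ 2 ≤ 2 ^ L * B ^ 2 := by
      calc ∑ r ∈ BL L, Y r ^ 2 ≤ ∑ _r ∈ BL L, B ^ 2 := Finset.sum_le_sum h1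
        _ = _ := by rw [Finset.sum_const, nsmul_eq_mul, cardR]
    have h6 : (2 : ℝ) ^ (R * L) * ∑ r ∈ BL L, Y r ^ 2 ≤ 2 ^ (R * L) * (2 ^ L * B ^ 2) :=
      mul_le_mul_of_nonneg_left h5 (by positivity)
    have h7 := mul_le_mul_of_nonneg_left ih (show (0 : ℝ) ≤ 2 ^ L by positivity)
    have h8 : ((R + 1 : ℕ) : ℝ) * B ^ 2 * 2 ^ (L + R * L) =
        2 ^ (R * L) * (2 ^ L * B ^ 2) + 2 ^ L * (R * B ^ 2 * 2 ^ (R * L)) := by
      push_cast
      ring
    rw [h8]
    simp only [mul_zero, zero_mul, add_zero]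
    exact add_le_add h6 h7

theorem cheb : S_CHEB := by
  intro X B R K L L' lo d hX hL hd hlo hK
  have hset : {c : List Bool | c.length = R * L ∧
      ¬ R * (lo - d) ≤ ((List.range R).map (fun t => X ((blk L t c).take L'))).sum} =
      (((BL (R * L)).filter fun c => ¬ R * (lo - d) ≤
        ∑ t ∈ range R, X ((blk L t c).take L') : Finset (List Bool)) : Set (List Bool)) := by
    ext c
    have hl : ∀ (f : ℕ → ℕ) (n : ℕ), ((List.range n).map f).sum = ∑ t ∈ range n, f t := by
      intro f n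
      induction n with
      | zero => rfl
      | succ n ih =>
        rw [List.range_succ, List.map_append, List.sum_append, ih, Finset.sum_range_succ]
        simp
    simp only [Set.mem_ofPred_eq, Finset.coe_filter, mem_BL, hl]
  rw [hset, Set.ncard_coe_finset]
  set bad := (BL (R * L)).filter fun c => ¬ R * (lo - d) ≤
        ∑ t ∈ range R, X ((blk L t c).take L') with hbad
  have hbad0 : (R = 0 ∨ B = 0 ∨ K = 0) → K * bad.card ≤ 2 ^ (R * L) := by
    rintro (h | h | h)
    · have : bad = ∅ := by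
        rw [hbad, Finset.filter_eq_empty_iff]
        intro c _
        rw [h]
        simp
      rw [this]
      simp
    · have hlo0 : lo = 0 := by
        have h1 : ∑ r ∈ BL L', X r = 0 := by
          refine Finset.sum_eq_zero fun r _ => ?_
          have := hX r
          omega
        rw [h1] at hlo
        by_contra h2
        have h3 : 0 < lo * 2 ^ L' := by positivity
        omega
      have : bad = ∅ := by
        rw [hbad, Finset.filter_eq_empty_iff]
        intro c _
        rw [hlo0]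
        simp
      rw [this]
      simp
    · rw [h]
      simp
  by_cases hd0 : d = 0
  · have h1 : K * B ^ 2 ≤ 0 := by
      rw [hd0] at hK
      simpa using hK
    have h2 : K * B ^ 2 = 0 := Nat.le_zero.1 h1
    rcases Nat.mul_eq_zero.1 h2 with h3 | h3
    · exact hbad0 (Or.inr (Or.inr h3))
    · exact hbad0 (Or.inr (Or.inl (pow_eq_zero_iff (two_ne_zero) |>.1 h3)))
  by_cases hR0 : R = 0
  · exact hbad0 (Or.inl hR0)
  set μ : ℝ := (∑ r ∈ BL L', (X r : ℝ)) / 2 ^ L' with hμ
  have hμlo : (lo : ℝ) ≤ μ := by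
    rw [hμ, le_div_iff₀ (by positivity)]
    exact_mod_cast hlo
  have hμ0 : 0 ≤ μ := le_trans (Nat.cast_nonneg lo) hμlo
  have hμB : μ ≤ B := by
    rw [hμ, div_le_iff₀ (by positivity)]
    calc ∑ r ∈ BL L', (X r : ℝ) ≤ ∑ _r ∈ BL L', (B : ℝ) :=
          Finset.sum_le_sum fun r _ => by exact_mod_cast hX r
      _ = _ := by rw [Finset.sum_const, nsmul_eq_mul, cardR, mul_comm]
  let Y : List Bool → ℝ := fun r => (X (r.take L') : ℝ) - μ
  have hY0 : ∑ r ∈ BL L, Y r = 0 := by
    obtain ⟨q, rfl⟩ := Nat.exists_eq_add_of_le hL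
    rw [sumR_add]
    have h1 : ∀ r ∈ BL L', ∀ s ∈ BL q, Y (r ++ s) = (X r : ℝ) - μ := by
      intro r hr s _
      have hr' : r.length = L' := mem_BL.1 hr
      simp only [Y]
      rw [← hr', List.take_left]
    rw [Finset.sum_congr rfl fun r hr => Finset.sum_congr rfl fun s hs => h1 r hr s hs]
    simp only [Finset.sum_const, nsmul_eq_mul, cardR]
    rw [← Finset.mul_sum, Finset.sum_sub_distrib, Finset.sum_const, nsmul_eq_mul, cardR, hμ]
    field_simp
    ring
  have hY1 : ∀ r ∈ BL L, Y r ^ 2 ≤ (B : ℝ) ^ 2 := by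
    intro r _
    have h1 : (X (r.take L') : ℝ) ≤ B := by exact_mod_cast hX _
    have h2 : (0 : ℝ) ≤ X (r.take L') := Nat.cast_nonneg _
    exact sq_le_sq' (by simp only [Y]; linarith) (by simp only [Y]; linarith)
  have hv := var_sum L Y B hY0 hY1 R
  have hch : (bad.card : ℝ) * (R * d) ^ 2 ≤
      ∑ c ∈ BL (R * L), (∑ t ∈ range R, Y (blk L t c)) ^ 2 := by
    calc (bad.card : ℝ) * (R * d) ^ 2 = ∑ _c ∈ bad, ((R : ℝ) * d) ^ 2 := by
          rw [Finset.sum_const, nsmul_eq_mul]
      _ ≤ ∑ c ∈ bad, (∑ t ∈ range R, Y (blk L t c)) ^ 2 := by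
          refine Finset.sum_le_sum fun c hc => ?_
          have h1 := (Finset.mem_filter.1 hc).2
          rw [not_le] at h1
          have h2 : (∑ t ∈ range R, (X ((blk L t c).take L') : ℝ)) < R * (lo - d) := by
            have h3 : ((∑ t ∈ range R, X ((blk L t c).take L') : ℕ) : ℝ) <
                ((R * (lo - d) : ℕ) : ℝ) := by exact_mod_cast h1
            rw [Nat.cast_mul, Nat.cast_sub hd] at h3
            push_cast at h3
            exact h3
          have h4 : ∑ t ∈ range R, Y (blk L t c) =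
              (∑ t ∈ range R, (X ((blk L t c).take L') : ℝ)) - R * μ := by
            simp only [Y]
            rw [Finset.sum_sub_distrib, Finset.sum_const, nsmul_eq_mul, Finset.card_range]
          have h5 : (R : ℝ) * lo ≤ R * μ := mul_le_mul_of_nonneg_left hμlo (Nat.cast_nonneg _)
          have h6 : (0 : ℝ) ≤ R * d := by positivity
          have h7 : ∑ t ∈ range R, Y (blk L t c) ≤ -(R * d) := by
            rw [h4]
            nlinarith
          nlinarith
      _ ≤ _ := Finset.sum_le_sum_of_subset_of_nonneg (Finset.filter_subset _ _)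
          fun c _ _ => sq_nonneg _
  have hKR : (K : ℝ) * B ^ 2 ≤ R * d ^ 2 := by exact_mod_cast hK
  have hRd : (0 : ℝ) < (R * d) ^ 2 := by
    have h1 : (0 : ℝ) < R := by exact_mod_cast Nat.pos_of_ne_zero hR0
    have h2 : (0 : ℝ) < d := by exact_mod_cast Nat.pos_of_ne_zero hd0
    positivity
  have hfin : ((K : ℝ) * bad.card) * ((R : ℝ) * d) ^ 2 ≤ 2 ^ (R * L) * ((R : ℝ) * d) ^ 2 := by
    calc ((K : ℝ) * bad.card) * ((R : ℝ) * d) ^ 2 = (K : ℝ) * (bad.card * ((R : ℝ) * d) ^ 2) := by
          ring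
      _ ≤ (K : ℝ) * ((R : ℝ) * (B : ℝ) ^ 2 * 2 ^ (R * L)) :=
          mul_le_mul_of_nonneg_left (hch.trans hv) (Nat.cast_nonneg _)
      _ = ((K : ℝ) * (B : ℝ) ^ 2) * ((R : ℝ) * 2 ^ (R * L)) := by ring
      _ ≤ ((R : ℝ) * (d : ℝ) ^ 2) * ((R : ℝ) * 2 ^ (R * L)) :=
          mul_le_mul_of_nonneg_right hKR (by positivity)
      _ = _ := by ring
  have h1 : (K : ℝ) * bad.card ≤ 2 ^ (R * L) := le_of_mul_le_mul_right hfin hRd
  exact_mod_cast h1

end Pool.Agent.W762.RL
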